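import Pool.Agent.N357.AP.Basic

/-!
# `φ(n+12) = φ(n)+12`, `σ(n+12) = σ(n)+12`: the solutions with two prime factors

`sig n` is the sum of the positive divisors of `n` (`Pool.Agent.N357.AP.sig`).

Outline.  Put `δ(N) = φ(N) + σ(N) - 2N`.  For primes `δ = 0`; it is `1` for the square of a prime, `2`
for a product of two different primes, and at least `3` for all other `N > 1`, by induction on the
number of prime factors.  For `n ∈ S` one has `δ(n + 12) = δ(n)`.  So `n + 12` is composite, and if
one of `n`, `n + 12` is a product of two primes, so is the other.  Then `n = p q`, `n + 12 = r s` with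
`p + q = r + s`, and `(q - p)² - (s - r)² = 48`, which leaves `q = p + 8`, `r = p + 2`, `s = p + 6`.
-/

set_option autoImplicit false

namespace Pool.Agent.Results.MP_9a9f07_nt.TwoPrimeFactors

open Finset Pool.Agent.N357.AP

/-- the set of the problem -/
def S : Set ℕ := {n | 1 < n ∧ ¬ n.Prime ∧ Nat.totient (n + 12) = Nat.totient n + 12 ∧
  sig (n + 12) = sig n + 12}

/-- `n` comes from a prime quadruple -/
def Quadruple (n : ℕ) : Prop :=
  ∃ p : ℕ, p.Prime ∧ (p + 2).Prime ∧ (p + 6).Prime ∧ (p + 8).Prime ∧ n = p * (p + 8)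

/-- a product of two primes -/
def TwoPrimes (n : ℕ) : Prop := ∃ p q : ℕ, p.Prime ∧ q.Prime ∧ n = p * q

theorem sig_mul_ge {r M : ℕ} (hr : 2 ≤ r) (hM : 1 ≤ M) : r * sig M + 1 ≤ sig (r * M) := by
  classical
  unfold sig
  have h1 : 1 ∉ M.divisors.image (fun d => r * d) := by
    intro h
    rw [mem_image] at h
    obtain ⟨d, -, hd⟩ := h
    have : r ∣ 1 := ⟨d, hd.symm⟩
    have := Nat.le_of_dvd (by norm_num) this
    omega
  have h2 : insert 1 (M.divisors.image (fun d => r * d)) ⊆ (r * M).divisors := by
    intro x hx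
    rw [mem_insert] at hx
    rw [Nat.mem_divisors]
    refine ⟨?_, by positivity⟩
    rcases hx with rfl | hx
    · exact one_dvd _
    · rw [mem_image] at hx
      obtain ⟨d, hd, rfl⟩ := hx
      exact Nat.mul_dvd_mul_left r (Nat.dvd_of_mem_divisors hd)
  have h3 := sum_le_sum_of_subset (f := fun d : ℕ => d) h2
  rw [sum_insert h1, sum_image (by intro a _ b _ h; exact Nat.eq_of_mul_eq_mul_left (by omega) h),
    ← mul_sum] at h3
  omega

theorem totient_lt' {M : ℕ} (hM : 2 ≤ M) : Nat.totient M + 1 ≤ M := Nat.totient_lt M (by omega)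

/-- lower bound for `r M` in terms of the lower bound for `M` -/
theorem step {r M e : ℕ} (hr : r.Prime) (hM : 2 ≤ M)
    (h : 2 * M + e ≤ Nat.totient M + sig M) :
    (r ∣ M → 2 * (r * M) + r * e + 1 ≤ Nat.totient (r * M) + sig (r * M)) ∧
    (¬ r ∣ M → 2 * (r * M) + r * e + (sig M - Nat.totient M) ≤
      Nat.totient (r * M) + sig (r * M)) := by
  have hr2 := hr.two_le
  constructor
  · intro hd
    have h1 := Nat.totient_mul_of_prime_of_dvd hr hd
    have h2 := sig_mul_ge hr2 (show 1 ≤ M by omega)
    rw [h1]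
    have h3 : r * (2 * M + e) ≤ r * (Nat.totient M + sig M) := Nat.mul_le_mul_left _ h
    have e1 : r * (2 * M + e) = 2 * (r * M) + r * e := by ring
    have e2 : r * (Nat.totient M + sig M) = r * Nat.totient M + r * sig M := by ring
    omega
  · intro hd
    have hcop : Nat.Coprime r M := (hr.coprime_iff_not_dvd).2 hd
    rw [Nat.totient_mul hcop, sig_mul hcop, Nat.totient_prime hr, sig_prime hr]
    have h3 : r * (2 * M + e) ≤ r * (Nat.totient M + sig M) := Nat.mul_le_mul_left _ h
    have h4 : Nat.totient M ≤ sig M := by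
      have := totient_lt' hM
      have := sig_ge hM
      omega
    obtain ⟨x, rfl⟩ : ∃ x, r = x + 1 := ⟨r - 1, by omega⟩
    obtain ⟨y, hy⟩ : ∃ y, sig M = Nat.totient M + y := ⟨sig M - Nat.totient M, by omega⟩
    rw [hy] at h3 ⊢
    have e0 : Nat.totient M + y - Nat.totient M = y := by omega
    rw [e0, Nat.add_sub_cancel]
    nlinarith

/-- `δ ≥ 0`, and `δ ≥ 1` for composite numbers -/
theorem delta : ∀ N : ℕ, 2 ≤ N → 2 * N ≤ Nat.totient N + sig N ∧
    (¬ N.Prime → 2 * N + 1 ≤ Nat.totient N + sig N) := by
  intro N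
  induction N using Nat.strong_induction_on with
  | _ N ih =>
    intro hN
    by_cases hp : N.Prime
    · refine ⟨?_, fun h => absurd hp h⟩
      rw [Nat.totient_prime hp, sig_prime hp]
      omega
    · have key : 2 * N + 1 ≤ Nat.totient N + sig N := by
        obtain ⟨r, hr, M, hM⟩ := Nat.exists_prime_and_dvd (show N ≠ 1 by omega)
        have hr2 := hr.two_le
        have hM2 : 2 ≤ M := by
          rcases (show M = 0 ∨ M = 1 ∨ 2 ≤ M by omega) with h | h | h
          · subst h; omega
          · subst h
            rw [mul_one] at hM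
            rw [hM] at hp
            exact absurd hr hp
          · exact h
        have hlt : M < N := by rw [hM]; nlinarith
        have h1 := (ih M hlt hM2).1
        have h2 := step (e := 0) hr hM2 (by omega)
        rw [hM]
        by_cases hd : r ∣ M
        · have := h2.1 hd
          omega
        · have := h2.2 hd
          have h3 := totient_lt' hM2
          have h4 := sig_ge hM2
          omega
      exact ⟨by omega, fun _ => key⟩

/-- a composite number which is not a product of two primes has `δ ≥ 3` -/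
theorem delta_three {N : ℕ} (hN : 2 ≤ N) (hp : ¬ N.Prime) (h2 : ¬ TwoPrimes N) :
    2 * N + 3 ≤ Nat.totient N + sig N := by
  obtain ⟨r, hr, M, hM⟩ := Nat.exists_prime_and_dvd (show N ≠ 1 by omega)
  have hr2 := hr.two_le
  have hM2 : 2 ≤ M := by
    rcases (show M = 0 ∨ M = 1 ∨ 2 ≤ M by omega) with h | h | h
    · subst h; omega
    · subst h
      rw [mul_one] at hM
      rw [hM] at hp
      exact absurd hr hp
    · exact h
  have hMp : ¬ M.Prime := fun h => h2 ⟨r, M, hr, h, hM⟩
  have h1 := (delta M hM2).2 hMp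
  have h3 := step (e := 1) hr hM2 h1
  rw [hM]
  by_cases hd : r ∣ M
  · have := h3.1 hd
    omega
  · have := h3.2 hd
    have h4 := totient_lt' hM2
    have h5 := sig_ge hM2
    omega

theorem vals {p q : ℕ} (hp : p.Prime) (hq : q.Prime) (hne : p ≠ q) :
    Nat.totient (p * q) + (p + q) = p * q + 1 ∧ sig (p * q) = p * q + (p + q) + 1 := by
  have hcop : Nat.Coprime p q := (Nat.coprime_primes hp hq).2 hne
  rw [Nat.totient_mul hcop, sig_mul hcop, Nat.totient_prime hp, Nat.totient_prime hq, sig_prime hp,
    sig_prime hq]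
  have h1 := hp.two_le
  have h2 := hq.two_le
  obtain ⟨x, rfl⟩ : ∃ x, p = x + 1 := ⟨p - 1, by omega⟩
  obtain ⟨y, rfl⟩ : ∃ y, q = y + 1 := ⟨q - 1, by omega⟩
  rw [Nat.add_sub_cancel, Nat.add_sub_cancel]
  constructor <;> ring

theorem vals_sq {p : ℕ} (hp : p.Prime) :
    Nat.totient (p * p) + p = p * p ∧ sig (p * p) = p * p + p + 1 := by
  have h1 := hp.two_le
  constructor
  · rw [Nat.totient_mul_of_prime_of_dvd hp dvd_rfl, Nat.totient_prime hp]
    obtain ⟨x, rfl⟩ : ∃ x, p = x + 1 := ⟨p - 1, by omega⟩
    rw [Nat.add_sub_cancel]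
    ring
  · unfold sig
    rw [← pow_two, Nat.divisors_prime_pow hp, sum_map]
    simp [sum_range_succ]
    ring

theorem two_two {p q r s : ℕ} (hp : p.Prime) (hq : q.Prime) (hr : r.Prime) (hs : s.Prime)
    (hpq : p ≤ q) (hrs : r ≤ s) (h : r * s = p * q + 12)
    (h1 : Nat.totient (r * s) = Nat.totient (p * q) + 12) (h2 : sig (r * s) = sig (p * q) + 12) :
    Quadruple (p * q) := by
  have hp2 := hp.two_le
  have hr2 := hr.two_le
  rcases hpq.eq_or_lt with he | hlt
  · subst he
    obtain ⟨a1, a2⟩ := vals_sq hp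
    rcases hrs.eq_or_lt with he | hlt
    · subst he
      exfalso
      obtain ⟨b1, b2⟩ := vals_sq hr
      have h3 : r = p := by omega
      subst h3
      omega
    · exfalso
      obtain ⟨b1, b2⟩ := vals hr hs hlt.ne
      omega
  · obtain ⟨a1, a2⟩ := vals hp hq hlt.ne
    rcases hrs.eq_or_lt with he | hlt2
    · subst he
      exfalso
      obtain ⟨b1, b2⟩ := vals_sq hr
      omega
    · obtain ⟨b1, b2⟩ := vals hr hs hlt2.ne
      have hsum : r + s = p + q := by omega
      obtain ⟨b, rfl⟩ : ∃ b, s = r + b := ⟨s - r, by omega⟩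
      obtain ⟨a, rfl⟩ : ∃ a, q = p + a := ⟨q - p, by omega⟩
      -- `p < r`
      have hpr : p < r := by
        by_contra hcon
        have h3 : r ≤ p := by omega
        obtain ⟨c, rfl⟩ : ∃ c, p = r + c := ⟨p - r, by omega⟩
        have h4 : b = c + c + a := by omega
        subst h4
        have h5 : (r + c) * (r + c + a) = r * (r + (c + c + a)) + c * (c + a) := by ring
        rw [h5] at h
        omega
      obtain ⟨c, rfl⟩ : ∃ c, r = p + c := ⟨r - p, by omega⟩
      have h4 : a = c + c + b := by omega
      subst h4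
      have h5 : (p + c) * (p + c + b) = p * (p + (c + c + b)) + c * (c + b) := by ring
      rw [h5] at h
      have h6 : c * (c + b) = 12 := by omega
      have hc0 : 1 ≤ c := by omega
      have hc3 : c ≤ 3 := by
        by_contra hcon
        have : 4 * (4 + 1) ≤ c * (c + b) := Nat.mul_le_mul (by omega) (by omega)
        omega
      have hodd : ∀ x : ℕ, x.Prime → x = 2 ∨ x % 2 = 1 := fun x hx => hx.eq_two_or_odd
      rcases (show c = 1 ∨ c = 2 ∨ c = 3 by omega) with h7 | h7 | h7
      · subst h7
        -- `b = 11`, `q = p + 13`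
        have hb : b = 11 := by omega
        subst hb
        exfalso
        have h8 := hodd _ hp
        have h9 := hodd _ hq
        have h10 : p = 2 := by omega
        subst h10
        norm_num at hq
      · subst h7
        have hb : b = 4 := by omega
        subst hb
        exact ⟨p, hp, hr, hs, hq, rfl⟩
      · subst h7
        have hb : b = 1 := by omega
        subst hb
        exfalso
        have h8 := hodd _ hp
        have h9 := hodd _ hq
        have h10 : p = 2 := by omega
        subst h10
        norm_num at hq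

theorem comp_of_two {n : ℕ} (h : TwoPrimes n) : 2 ≤ n ∧ Nat.totient n + sig n ≤ 2 * n + 2 := by
  obtain ⟨p, q, hp, hq, rfl⟩ := h
  have h1 := hp.two_le
  have h2 := hq.two_le
  refine ⟨by nlinarith, ?_⟩
  by_cases he : p = q
  · subst he
    have := vals_sq hp
    omega
  · have := vals hp hq he
    omega

/-- Let `n ∈ S`.  (1) `n + 12` is not prime.  (2) The following are equivalent: `n` comes from a prime
quadruple; `n` is a product of two primes; `n + 12` is a product of two primes. -/
theorem result : ∀ n ∈ S, ¬ (n + 12).Prime ∧ (Quadruple n ↔ TwoPrimes n) ∧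
    (Quadruple n ↔ TwoPrimes (n + 12)) := by
  rintro n ⟨hn1, hnp, ht, hs⟩
  have hd : Nat.totient (n + 12) + sig (n + 12) = Nat.totient n + sig n + 24 := by omega
  have hcomp : ¬ (n + 12).Prime := by
    intro h
    have h1 := (delta n hn1).2 hnp
    rw [Nat.totient_prime h, sig_prime h] at hd
    omega
  have h12 : TwoPrimes n → TwoPrimes (n + 12) := by
    intro h
    by_contra hcon
    have h1 := delta_three (show 2 ≤ n + 12 by omega) hcomp hcon
    have h2 := (comp_of_two h).2
    omega
  have h21 : TwoPrimes (n + 12) → TwoPrimes n := by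
    intro h
    by_contra hcon
    have h1 := delta_three hn1 hnp hcon
    have h2 := (comp_of_two h).2
    omega
  have hQ2 : Quadruple n → TwoPrimes n := by
    rintro ⟨p, hp, -, -, hq, rfl⟩
    exact ⟨p, p + 8, hp, hq, rfl⟩
  have h2Q : TwoPrimes n → Quadruple n := by
    intro h
    have h' := h12 h
    obtain ⟨p, q, hp, hq, rfl⟩ := h
    obtain ⟨r, s, hr, hs', hrs⟩ := h'
    rw [hrs] at ht hs
    rcases le_total p q with h1 | h1 <;> rcases le_total r s with h2 | h2
    · exact two_two hp hq hr hs' h1 h2 hrs.symm ht hs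
    · rw [mul_comm r s] at ht hs hrs
      exact two_two hp hq hs' hr h1 h2 hrs.symm ht hs
    · rw [mul_comm p q] at ht hs hrs ⊢
      exact two_two hq hp hr hs' h1 h2 hrs.symm ht hs
    · rw [mul_comm p q] at ht hs hrs ⊢
      rw [mul_comm r s] at ht hs hrs
      exact two_two hq hp hs' hr h1 h2 hrs.symm ht hs
  exact ⟨hcomp, ⟨hQ2, h2Q⟩, ⟨fun h => h12 (hQ2 h), fun h => h2Q (h21 h)⟩⟩

end Pool.Agent.Results.MP_9a9f07_nt.TwoPrimeFactors
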